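import Pool.Agent.Lib.helper21.Bushy
import Pool.Agent.Lib.helper21.Num

set_option autoImplicit false

/-! Forcing with enumerable bushy trees and small bad sets. -/

namespace Pool.Agent.H.MP_99e598_lc

open Filter Pool.Agent.H.MP_fa2eca_lc Pool.Agent.Lib.helper21 Encodable
open Pool.Agent.Lib.helper21.PR Finset

attribute [local irreducible] Primrec Computable

structure Cond (G : ℕ → ℕ) where
  σ : List ℕ
  T : List ℕ → Prop
  S : List ℕ → Prop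
  p : ℕ → ℕ
  w : ℕ → ℕ
  hT : RE T
  hS : RE S
  hp : Primrec p
  hw : Primrec w
  mem : T σ
  down : ∀ ρ τ, ρ <+: τ → T τ → T ρ
  up : ∀ ρ τ, ρ <+: τ → S ρ → S τ
  bushy : ∀ ρ, σ <+: ρ → T ρ → ∃ F : Finset ℕ, w ρ.length ≤ F.card ∧ ∀ a ∈ F, T (ρ ++ [a])
  small : ¬ Big T p S σ
  pos : ∀ l, 0 < p l
  le : ∀ l, σ.length ≤ l → p l ≤ w l
  room : ∀ c, ∀ᶠ l in atTop, G l ^ c * p l ≤ w l

variable {G : ℕ → ℕ}

def Cond.Le (d c : Cond G) : Prop :=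
  c.σ <+: d.σ ∧ (∀ τ, d.T τ → c.T τ) ∧ ∀ τ, c.S τ → d.S τ

theorem Cond.long (c : Cond G) : ∀ n, ∃ τ, c.σ <+: τ ∧ c.T τ ∧ ¬ Big c.T c.p c.S τ ∧ n ≤ τ.length
  | 0 => ⟨_, List.prefix_refl _, c.mem, c.small, Nat.zero_le _⟩
  | n + 1 => by
    obtain ⟨τ, h1, h2, h3, h4⟩ := c.long n
    obtain ⟨F, h5, h6⟩ := c.bushy τ h1 h2
    obtain ⟨a, ha⟩ := not_forall.1 fun k => h3 (.step F ((c.le _ h1.length_le).trans h5) h6 k)
    obtain ⟨ha, hb⟩ := Classical.not_imp.1 ha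
    exact ⟨_, h1.trans (List.prefix_append _ _), h6 a ha, hb, by simpa⟩

def Cond.move (c : Cond G) {τ : List ℕ} (h1 : c.σ <+: τ) (h2 : c.T τ) (h3 : ¬ Big c.T c.p c.S τ) :
    Cond G :=
  { c with
    σ := τ, mem := h2, small := h3, bushy := fun ρ h => c.bushy ρ (h1.trans h)
    le := fun l h => c.le l (h1.length_le.trans h) }

theorem Cond.add (c : Cond G) {τ : List ℕ} (h1 : c.σ <+: τ) (h2 : c.T τ) {X : List ℕ → Prop}
    (hX : RE X) (up : ∀ ρ τ, ρ <+: τ → X ρ → X τ) {p : ℕ → ℕ} (hp : Primrec p)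
    (pos : ∀ l, 0 < p l) (le : ∀ l, τ.length ≤ l → p l ≤ c.w l)
    (room : ∀ k, ∀ᶠ l in atTop, G l ^ k * p l ≤ c.w l)
    (h3 : ¬ Big c.T p (fun τ => c.S τ ∨ X τ) τ) : ∃ d : Cond G, d.Le c ∧ ∀ τ, X τ → d.S τ :=
  ⟨{ c with
    σ := τ, S := fun τ => c.S τ ∨ X τ, p := p, hp := hp, pos := pos, le := le, room := room
    hS := RE.un (RE.re (r_or (r_pw c.hS) (r_pw hX))), mem := h2, small := h3
    up := fun a b h k => k.imp (c.up a b h) (up a b h)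
    bushy := fun ρ h => c.bushy ρ (h1.trans h) }, ⟨h1, fun _ h => h, fun _ => .inl⟩, fun _ => .inr⟩

theorem Cond.ext (c : Cond G) {q : ℕ → ℕ} (hq : ∀ l, c.σ.length ≤ l → q l ≤ c.w l)
    {X : List ℕ → Prop} (up : ∀ ρ τ, ρ <+: τ → X ρ → X τ) (n : ℕ) {τ : List ℕ}
    (h : Big c.T q X τ) : c.σ <+: τ → c.T τ →
      Big c.T q (fun ρ => c.T ρ ∧ X ρ ∧ n ≤ ρ.length) τ := by
  induction h with
  | @base τ h =>
    induction hd : n - τ.length generalizing τ with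
    | zero => exact fun _ h2 => .base ⟨h2, h, by omega⟩
    | succ d ih =>
      intro h1 h2
      obtain ⟨F, h3, h4⟩ := c.bushy τ h1 h2
      exact .step F ((hq _ h1.length_le).trans h3) h4 fun a ha => ih
        (up _ _ (List.prefix_append _ _) h) (by simp; omega) (h1.trans (List.prefix_append _ _))
        (h4 a ha)
  | step F h1 h2 _ ih =>
    exact fun h3 _ => .step F h1 h2 fun a ha =>
      ih a ha (h3.trans (List.prefix_append _ _)) (h2 a ha)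

@[fun_prop] theorem ci_lmap {α β γ : Type} [Primcodable α] [Primcodable β] [Primcodable γ]
    [Inhabited β] {Y : ℕ → Bool} {f : α → β → γ} {l : α → List β}
    (h : CI Y fun z : α × β => f z.1 z.2) (hl : CI Y l) : CI Y fun a => (l a).map (f a) :=
  (ci_map (f := fun a i => f a ((l a).getD i default)) (m := fun a => (l a).length) (by fun_prop)
    (by fun_prop)).of_eq fun a => List.ext_getElem (by simp) fun i h1 _ => by
      simp at h1; simp [h1]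

/-- the string is an initial segment of the function -/
def Pf (τ : List ℕ) (g : ℕ → ℕ) : Prop := ∀ k < τ.length, τ.getD k 0 = g k

theorem Pf.of {ρ τ : List ℕ} {g : ℕ → ℕ} (h : Pf τ g) (e : ρ <+: τ) : Pf ρ g := fun k hk => by
  obtain ⟨t, rfl⟩ := e
  exact (List.getD_append _ _ _ _ hk).symm.trans (h k (by simp; omega))

theorem thin (c : Cond G) {q : ℕ → ℕ} (hq : Primrec q) (q1 : ∀ l, c.σ.length ≤ l → q l ≤ c.w l)
    (q2 : ∀ l, c.σ.length ≤ l → c.p l ≤ q l) (q3 : ∀ k, ∀ᶠ l in atTop, G l ^ k * c.p l ≤ q l)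
    (q4 : ∀ l, 0 < q l) {X : ℕ → ℕ → List ℕ → Prop}
    (hX : RE fun z : ℕ × ℕ × List ℕ => X z.1 z.2.1 z.2.2)
    (up : ∀ n v ρ τ, ρ <+: τ → X n v ρ → X n v τ)
    (h : ∀ n τ, c.σ <+: τ → c.T τ → Big c.T q (fun ρ => c.S ρ ∨ ∃ v, X n v ρ) τ) :
    ∃ d : Cond G, d.Le c ∧ ∃ b : ℕ → ℕ, CI (fun _ => false) b ∧ ∀ g, (∀ M, ∃ τ, d.T τ ∧
      M ≤ τ.length ∧ Pf τ g) → ∀ n, ∃ τ, Pf τ g ∧ (c.S τ ∨ ∃ v ≤ b n, X n v τ) := by
  obtain ⟨N, h1, h2, h3, h4⟩ := re_bool (r_pw c.hT).re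
  have h5 := cert_re (T := fun _ : Unit => c.T) (p := fun _ => q) (r_comp c.hT .snd)
    (RE.un (RE.re (by fun_prop))) fun _ _ _ => Iff.rfl
  have hS := c.hS
  obtain ⟨f, f1, f2⟩ := RI.choice (Y := fun _ => false)
    (R := fun (z : (List ℕ × ℕ) × ℕ) (y : List (List ℕ) × ℕ) => ¬ (N z.1.1 z.1.2 ∧ c.σ <+: z.1.1) ∨
      y.1 ≠ [] ∧ Cert c.T q z.1.1 y.1 ∧ ∀ ρ ∈ y.1, (N ρ y.2 ∧ z.1.1 <+: ρ ∧ z.2 ≤ ρ.length) ∧
        (c.S ρ ∨ ∃ v, v ≤ y.2 ∧ X z.2 v ρ))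
    (i_re (by
      generalize Cert c.T q = C at h5
      generalize c.S = S at hS
      have h6 := r_comp (f := fun z : List ℕ × List (List ℕ) => ((), z)) h5 (by fun_prop)
      fun_prop)) fun ⟨⟨τ, t⟩, n⟩ => by
      by_cases a : N τ t ∧ c.σ <+: τ
      · obtain ⟨L, a1, a2, a3⟩ := (big_iff q4).1 (c.ext q1 (fun a b e k => k.imp (c.up a b e)
          fun ⟨v, k⟩ => ⟨v, up _ _ a b e k⟩) n (h n τ a.2 (h2 _ _ a.1)) a.2 (h2 _ _ a.1))
        have : ∀ ρ ∈ L, ∀ᶠ t in atTop, N ρ t ∧ (c.S ρ ∨ ∃ v, v ≤ t ∧ X n v ρ) := fun ρ hρ => by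
          obtain ⟨t, ht⟩ := h4 ρ (a2 ρ hρ).2.1
          refine ((eventually_ge_atTop t).mono fun s hs => h3 _ _ _ hs ht).and ?_
          exact (a2 ρ hρ).2.2.1.elim (fun k => .of_forall fun _ => .inl k) fun ⟨v, k⟩ =>
            (eventually_ge_atTop v).mono fun s hs => .inr ⟨v, hs, k⟩
        obtain ⟨t, ht⟩ := ((eventually_all_finite L.finite_toSet).2 this).exists
        exact ⟨(L, t), .inr ⟨a1, a3, fun ρ hρ => ⟨⟨(ht ρ hρ).1, (a2 ρ hρ).1, (a2 ρ hρ).2.2.2⟩,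
          (ht ρ hρ).2⟩⟩⟩
      · exact ⟨([], 0), .inl a⟩
  obtain ⟨t0, h0⟩ := h4 _ c.mem
  let Λ : ℕ → List (List ℕ × ℕ) := fun n => Nat.rec [(c.σ, t0)] (fun n L =>
    (L.map fun x => (f (x, n)).1.map fun ρ => (ρ, (f (x, n)).2)).flatten) n
  have l0 : CI (fun _ => false) Λ := by unfold Λ; generalize c.σ = σ; fun_prop
  have l1 : ∀ n y, y ∈ Λ (n + 1) ↔ ∃ x ∈ Λ n, y.1 ∈ (f (x, n)).1 ∧ y.2 = (f (x, n)).2 :=
    fun n y => by
      simp only [Λ, List.mem_flatten, List.mem_map]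
      exact ⟨fun ⟨_, ⟨x, a, rfl⟩, b⟩ => by
        obtain ⟨ρ, b', rfl⟩ := List.mem_map.1 b; exact ⟨x, a, b', rfl⟩,
        fun ⟨x, a, b, e⟩ => ⟨_, ⟨x, a, rfl⟩, List.mem_map.2 ⟨_, b, e ▸ rfl⟩⟩⟩
  have l2 : ∀ n, ∀ x ∈ Λ n, N x.1 x.2 ∧ c.σ <+: x.1 := fun n => by
    induction n with
    | zero => simp [Λ, h0]
    | succ n ih =>
      intro y hy
      obtain ⟨x, a, b, e⟩ := (l1 _ _).1 hy
      have := (((f2 (x, n)).resolve_left (not_not.2 (ih x a))).2.2 _ b).1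
      exact ⟨e ▸ this.1, (ih x a).2.trans this.2.1⟩
  have l3 := fun n x (a : x ∈ Λ n) => (f2 (x, n)).resolve_left (not_not.2 (l2 n x a))
  have l4 : ∀ n d, ∀ x ∈ Λ n, ∃ y ∈ Λ (n + d), x.1 <+: y.1 := fun n d x hx => by
    induction d with
    | zero => exact ⟨x, hx, List.prefix_refl _⟩
    | succ d ih =>
      obtain ⟨y, a, b⟩ := ih
      obtain ⟨ρ, e⟩ := List.exists_mem_of_ne_nil _ (l3 _ y a).1
      exact ⟨(ρ, _), (l1 _ _).2 ⟨y, a, e, rfl⟩, b.trans ((l3 _ y a).2.2 ρ e).1.2.1⟩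
  have l5 : ∀ n d, ∀ y ∈ Λ (n + d), ∃ x ∈ Λ n, x.1 <+: y.1 := fun n d => by
    induction d with
    | zero => exact fun x hx => ⟨x, hx, List.prefix_refl _⟩
    | succ d ih =>
      intro y hy
      obtain ⟨x, a, b, -⟩ := (l1 _ _).1 hy
      exact (ih x a).imp fun z hz => ⟨hz.1, hz.2.trans ((l3 _ x a).2.2 _ b).1.2.1⟩
  have l6 : ∀ ρ, c.σ <+: ρ → ∀ n, ∀ x ∈ Λ n, ρ <+: x.1 → ρ ≠ x.1 → ∃ F : Finset ℕ,
      q ρ.length ≤ F.card ∧ ∀ a ∈ F, ∃ n, ∃ x, x ∈ Λ n ∧ ρ ++ [a] <+: x.1 := fun ρ hρ n => by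
    induction n with
    | zero =>
      intro x hx a b
      obtain rfl : x = (c.σ, t0) := by simpa [Λ] using hx
      exact absurd (a.eq_of_length_le hρ.length_le) b
    | succ n ih =>
      intro y hy a b
      obtain ⟨x, a1, a2, -⟩ := (l1 _ _).1 hy
      rcases lt_or_ge ρ.length x.1.length with e | e
      · exact ih x a1 (List.prefix_of_prefix_length_le a ((l3 _ x a1).2.2 _ a2).1.2.1 e.le)
          fun k => e.ne (k ▸ rfl)
      · obtain ⟨F, a3, a4⟩ := (l3 _ x a1).2.1.ex a2 a b e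
        exact ⟨F, a3, fun k hk => let ⟨τ, a5, a6⟩ := (a4 k hk).2
          ⟨n + 1, (τ, _), (l1 _ _).2 ⟨x, a1, a5, rfl⟩, a6⟩⟩
  have l7 : ∀ τ, (∃ n, ∃ x, x ∈ Λ n ∧ τ <+: x.1) → c.T τ := fun τ ⟨n, x, a, b⟩ =>
    c.down _ _ b (h2 _ _ (l2 n x a).1)
  refine ⟨{ c with
    T := fun τ => ∃ n, ∃ x, x ∈ Λ n ∧ τ <+: x.1, w := q, hw := hq, le := q2, room := q3
    hT := RI.re (RI.un (i_exists (i_exists (i_ci (ci_comp (f := fun z : (List ℕ × List ℕ × ℕ) ×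
      List (List ℕ × ℕ) => cd (z.1.2 ∈ z.2 ∧ z.1.1 <+: z.1.2.1))
        (g := fun z : (List ℕ × ℕ) × List ℕ × ℕ => ((z.1.1, z.2), Λ z.1.2))
          (ci_prim (by fun_prop)) (by clear_value Λ; fun_prop))))))
    mem := ⟨0, (c.σ, t0), by simp [Λ], List.prefix_refl _⟩
    down := fun a b e ⟨n, x, k1, k2⟩ => ⟨n, x, k1, e.trans k2⟩
    small := fun k => c.small (k.mono l7 (fun _ _ => le_rfl) fun _ _ k => k)
    bushy := fun ρ hρ ⟨n, x, a, b⟩ => by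
      obtain ⟨y, a1, a2⟩ := l4 n (ρ.length + 2) x a
      obtain ⟨z, a3, a4, -⟩ := (l1 (n + (ρ.length + 1)) _).1 a1
      have := ((l3 _ z a3).2.2 _ a4).1.2.2
      exact l6 ρ hρ (n + (ρ.length + 2)) y a1 (b.trans a2) fun k => by rw [← k] at this; dsimp only at this; omega },
    ⟨List.prefix_refl _, l7, fun _ h => h⟩, fun n => ((Λ (n + 1)).map Prod.snd).sum,
    by clear_value Λ; fun_prop, fun g hg n => ?_⟩
  obtain ⟨τ, ⟨k, y, a1, a2⟩, a3, a4⟩ := hg (((Λ (n + 1)).map fun x => x.1.length).sum + 1)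
  have a5 : ∀ x ∈ Λ (n + 1), x.1.length < τ.length := fun x hx => Nat.lt_of_succ_le
    ((Nat.succ_le_succ (List.single_le_sum (by simp) _ (List.mem_map_of_mem hx))).trans a3)
  rcases le_total k (n + 1) with e | e
  · obtain ⟨d, e⟩ := Nat.exists_eq_add_of_le e
    obtain ⟨x, b1, b2⟩ := l4 k d y a1
    exact absurd (a2.trans b2).length_le (a5 x (e ▸ b1)).not_ge
  · obtain ⟨d, rfl⟩ := Nat.exists_eq_add_of_le e
    obtain ⟨x, b1, b2⟩ := l5 _ d y a1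
    obtain ⟨z, b3, b4, b5⟩ := (l1 _ _).1 b1
    exact ⟨x.1, a4.of (List.prefix_of_prefix_length_le b2 a2 (a5 x b1).le),
      ((l3 _ z b3).2.2 _ b4).2.imp_right fun ⟨v, k1, k2⟩ => ⟨v, (k1.trans_eq b5.symm).trans
        (List.single_le_sum (by simp) _ (List.mem_map_of_mem b1)), k2⟩⟩

theorem stepH (hG : ∀ l, 2 ≤ G l) (c : Cond G) {X : ℕ → ℕ → List ℕ → Prop}
    (hX : RE fun z : ℕ × ℕ × List ℕ => X z.1 z.2.1 z.2.2)
    (up : ∀ n v ρ τ, ρ <+: τ → X n v ρ → X n v τ) : ∃ d : Cond G, d.Le c ∧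
      ((∃ n, ∀ τ v, X n v τ → d.S τ) ∨ ∃ b : ℕ → ℕ, CI (fun _ => false) b ∧ ∀ g, (∀ M, ∃ τ, d.T τ ∧
        M ≤ τ.length ∧ Pf τ g) → ∀ n, ∃ τ, Pf τ g ∧ (c.S τ ∨ ∃ v ≤ b n, X n v τ)) := by
  let q : ℕ → ℕ := fun l => (c.p l * c.w l).sqrt + 1
  have hq : Primrec q := by have := c.hp; have := c.hw; unfold q; fun_prop
  have q1 : ∀ k, ∀ᶠ l in atTop, G l ^ k * c.p l ≤ q l := fun k => (c.room (k + k)).mono fun l h =>
    Nat.le_succ_of_le (Nat.le_sqrt.2 (by rw [pow_add] at h; nlinarith [Nat.zero_le (c.p l)]))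
  have q2 : ∀ k, ∀ᶠ l in atTop, G l ^ k * (c.p l + q l) ≤ c.w l := fun k =>
    (c.room (k + 2 + (k + 2))).mono fun l h => by
      have h1 : G l ^ (k + 2) * (c.p l * c.w l).sqrt ≤ c.w l := by
        rw [pow_add] at h
        have := Nat.sqrt_le (c.p l * c.w l)
        refine Nat.mul_self_le_mul_self_iff.1 ?_
        calc _ = G l ^ (k + 2) * G l ^ (k + 2) * ((c.p l * c.w l).sqrt * (c.p l * c.w l).sqrt) := by
              ring
          _ ≤ G l ^ (k + 2) * G l ^ (k + 2) * (c.p l * c.w l) := Nat.mul_le_mul_left _ this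
          _ ≤ _ := by rw [← mul_assoc]; exact Nat.mul_le_mul_right _ h
      have h2 : c.p l ≤ (c.p l * c.w l).sqrt := Nat.le_sqrt.2 (Nat.mul_le_mul_left _
        ((Nat.le_mul_of_pos_left _ (pow_pos (by linarith [hG l]) _)).trans h))
      have h3 := c.pos l
      have h4 : 4 ≤ G l ^ 2 := by nlinarith [hG l]
      refine le_trans ?_ h1
      rw [pow_add, mul_assoc]
      exact Nat.mul_le_mul_left _ (by unfold q; nlinarith)
  obtain ⟨N, hN⟩ := eventually_atTop.1 ((q1 0).and (q2 0))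
  simp only [pow_zero, one_mul] at hN
  obtain ⟨σ, a1, a2, a3, a4⟩ := c.long N
  by_cases h : ∃ n τ, σ <+: τ ∧ c.T τ ∧
    ¬ Big c.T (fun l => c.p l + q l) (fun ρ => c.S ρ ∨ ∃ v, X n v ρ) τ
  · obtain ⟨n, τ, b1, b2, b3⟩ := h
    obtain ⟨d, b4, b5⟩ := c.add (a1.trans b1) b2 (RE.un (RE.re (by fun_prop)))
      (fun a b e ⟨v, k⟩ => ⟨v, up _ _ a b e k⟩) (by have := c.hp; fun_prop)
      (fun l => Nat.add_pos_left (c.pos l) _) (fun l hl => (hN l (a4.trans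
        (b1.length_le.trans hl))).2) q2 b3
    exact ⟨d, b4, .inl ⟨n, fun τ v k => b5 τ ⟨v, k⟩⟩⟩
  · push Not at h
    obtain ⟨d, b1, b2⟩ := thin (c.move a1 a2 a3) hq (fun l hl => (Nat.le_add_left _ _).trans
      (hN l (a4.trans hl)).2) (fun l hl => (hN l (a4.trans hl)).1) q1 (fun _ => Nat.succ_pos _) hX up
      fun n τ b1 b2 => (h n τ b1 b2).mono (fun _ k => k) (fun _ _ => Nat.le_add_left _ _)
        fun _ _ k => k
    exact ⟨d, ⟨a1.trans b1.1, b1.2⟩, .inr b2⟩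

/-- first witness found by program `i` on input `σ` -/
def Fst (i : ℕ) (σ : List ℕ) (u : ℕ) : Prop :=
  (Nat.Partrec.Code.evaln u.unpair.2 (Denumerable.ofNat _ i) (encode (σ, u.unpair.1))).isSome ∧
    ∀ u' < u, ¬ (Nat.Partrec.Code.evaln u'.unpair.2 (Denumerable.ofNat _ i)
      (encode (σ, u'.unpair.1))).isSome

theorem stepR {L : ℕ → ℕ} (hL : Primrec L) (hm : Monotone L) (c : Cond fun l => 2 ^ L l + 1)
    {X : ℕ → ℕ → List ℕ → Prop} (hX : RE fun z : ℕ × ℕ × List ℕ => X z.1 z.2.1 z.2.2)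
    (up : ∀ n v ρ τ, ρ <+: τ → X n v ρ → X n v τ) (k : ℕ) : ∃ d : Cond _, d.Le c ∧
      ((∃ l, ∀ τ, ∀ v < 2 ^ L l, X l v τ → d.S τ) ∨ ∃ i σ u, i ≤ σ.length ∧ k ≤ σ.length ∧ c.T σ ∧
        Fst i σ u ∧ X σ.length u.unpair.1 d.σ) := by
  classical
  have hp := c.hp
  have h1 := big_re (α := ℕ × ℕ) (T := fun _ => c.T) (S := fun z => X z.1 z.2) (p := fun _ => c.p)
    (r_comp c.hT .snd) (r_comp (f := fun z : (ℕ × ℕ) × List ℕ => (z.1.1, z.1.2, z.2)) hX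
      (by fun_prop)) (RE.un (RE.re (by fun_prop))) (fun _ _ _ => Iff.rfl) fun _ => c.pos
  obtain ⟨e, he⟩ := re_code (r_pw (r_comp (f := fun z : List ℕ × ℕ => ((z.1.length, z.2), z.1)) h1
    (by fun_prop))).re
  obtain ⟨N, hN⟩ := eventually_atTop.1 (c.room 1)
  obtain ⟨σ, a1, a2, a3, a4⟩ := c.long (N + k + encode e)
  by_cases h : ∃ u : ℕ, (Nat.Partrec.Code.evaln u.unpair.2 e (encode (σ, u.unpair.1))).isSome
  · obtain ⟨y, hy⟩ := Option.isSome_iff_exists.1 (Nat.find_spec h)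
    obtain ⟨τ, b1, b2, b3, b4⟩ := ((he (σ, _)).2 (Part.dom_iff_mem.2
      ⟨y, Nat.Partrec.Code.evaln_sound hy⟩)).meet a2 a3
    exact ⟨c.move (a1.trans b1) b2 b4, ⟨a1.trans b1, fun _ h => h, fun _ h => h⟩, .inr ⟨encode e, σ,
      Nat.find h, by omega, by omega, a2, by
        rw [Fst, Denumerable.ofNat_encode]; exact ⟨Nat.find_spec h, fun _ => Nat.find_min h⟩, b3⟩⟩
  · have b0 : ∀ l, σ.length ≤ l → 2 ^ L σ.length + 1 ≤ 2 ^ L l + 1 := fun l hl =>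
      Nat.succ_le_succ (Nat.pow_le_pow_right (by omega) (hm hl))
    obtain ⟨d, b1, b2⟩ := c.add a1 a2 (X := fun τ => ∃ v, v < 2 ^ L σ.length ∧ X σ.length v τ)
      (RE.un (RE.re (by generalize σ.length = l; fun_prop)))
      (fun a b e ⟨v, k1, k2⟩ => ⟨v, k1, up _ _ a b e k2⟩)
      (p := fun l => (2 ^ L σ.length + 1) * c.p l) (by fun_prop)
      (fun l => Nat.mul_pos (Nat.succ_pos _) (c.pos l)) (fun l hl => (Nat.mul_le_mul_right _
        (b0 l hl)).trans (by simpa using hN l (by omega))) (fun k => ((c.room (k + 1)).and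
          (eventually_ge_atTop σ.length)).mono fun l ⟨k1, k2⟩ => le_trans (by
            rw [pow_succ, mul_assoc]
            exact Nat.mul_le_mul_left _ (Nat.mul_le_mul_right _ (b0 l k2))) k1)
      fun b => b.union.elim a3 fun ⟨v, _, b⟩ => by
        obtain ⟨y, hy⟩ := Part.dom_iff_mem.1 ((he (σ, v)).1 b)
        obtain ⟨t, ht⟩ := Nat.Partrec.Code.evaln_complete.1 hy
        exact h ⟨Nat.pair v t, by rw [Nat.unpair_pair, Option.mem_def.1 ht]; rfl⟩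
    exact ⟨d, b1, .inl ⟨_, fun τ v k1 k2 => b2 τ ⟨v, k1, k2⟩⟩⟩

end Pool.Agent.H.MP_99e598_lc
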