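import Pool.Agent.H.MP_99e598_lc.A

set_option autoImplicit false

/-! Generic paths. -/

namespace Pool.Agent.H.MP_99e598_lc

open Filter Pool.Agent.H.MP_fa2eca_lc Pool.Agent.Lib.helper21 Encodable MeasureTheory
open Pool.Agent.Lib.helper21.PR Finset Pool.Agent.Lib.helper21.ML
open scoped ENNReal

attribute [local irreducible] Primrec Computable

variable {G : ℕ → ℕ}

def Force (d : Cond G) (g : ℕ → ℕ) : Prop :=
  Pf d.σ g ∧ (∀ M, ∃ τ, d.T τ ∧ M ≤ τ.length ∧ Pf τ g) ∧ ∀ τ, Pf τ g → ¬ d.S τ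

theorem Cond.Le.trans {c d e : Cond G} (h : e.Le d) (k : d.Le c) : e.Le c :=
  ⟨k.1.trans h.1, fun τ a => k.2.1 τ (h.2.1 τ a), fun τ a => h.2.2 τ (k.2.2 τ a)⟩

theorem Cond.Le.refl (c : Cond G) : c.Le c := ⟨List.prefix_refl _, fun _ h => h, fun _ h => h⟩

theorem Pf.pre {ρ τ : List ℕ} {g : ℕ → ℕ} (h : Pf ρ g) (k : Pf τ g) (e : ρ.length ≤ τ.length) :
    ρ <+: τ := List.prefix_iff_eq_take.2 (List.ext_getElem (by simpa) fun i h1 _ => by
      simpa [h1, h1.trans_le e] using (h i h1).trans (k i (h1.trans_le e)).symm)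

theorem generic {ι : Type} [Denumerable ι] (c : Cond G) (D : ι → Cond G → Prop)
    (h : ∀ i, ∀ d : Cond G, d.Le c → ∃ e : Cond G, e.Le d ∧ D i e) :
    ∃ g, ∀ i, ∃ d : Cond G, d.Le c ∧ D i d ∧ Force d g := by
  have h1 : ∀ (n : ℕ) (d : {d : Cond G // d.Le c}), ∃ e : {d : Cond G // d.Le c},
      n < e.1.σ.length ∧ ∃ f : Cond G, e.1.Le f ∧ f.Le d.1 ∧ D (Denumerable.ofNat ι n) f :=
    fun n d => by
      obtain ⟨f, a1, a2⟩ := h (Denumerable.ofNat ι n) d.1 d.2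
      obtain ⟨τ, a3, a4, a5, a6⟩ := f.long (n + 1)
      have : (f.move a3 a4 a5).Le f := ⟨a3, fun _ h => h, fun _ h => h⟩
      exact ⟨⟨_, this.trans (a1.trans d.2)⟩, a6, f, this, a1, a2⟩
  choose F h1 f h2 h3 h4 using h1
  let z : ℕ → {d : Cond G // d.Le c} := fun n => Nat.rec ⟨c, .refl c⟩ F n
  have h5 : ∀ n k, (z (n + k)).1.Le (z n).1 := fun n k => by
    induction k with
    | zero => exact .refl _
    | succ k ih => exact ((h2 _ _).trans (h3 _ _)).trans ih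
  have h6 : ∀ n, n ≤ (z n).1.σ.length := fun n => by
    cases n with
    | zero => exact Nat.zero_le _
    | succ n => exact h1 n _
  obtain ⟨g, -, hg⟩ := chain (fun n => (z n).1.σ) (fun n => (h5 n 1).1) h6
  refine ⟨g, fun i => ?_⟩
  have h7 := fun k => (h5 (encode i + 1) k).trans (h2 (encode i) (z (encode i)))
  exact ⟨_, (h3 _ _).trans (z _).2, by simpa using h4 (encode i) (z (encode i)),
    Pf.of (hg (encode i + 1 + 0)) (h7 0).1, fun M => ⟨_, (h7 M).2.1 _ (z _).1.mem, (Nat.le_add_left _ _).trans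
      (h6 _), hg _⟩, fun τ a b => (z (encode i + 1 + τ.length)).1.small (.base ((z _).1.up _ _
        (a.pre (hg _) ((Nat.le_add_left _ _).trans (h6 _))) ((h7 _).2.2 _ b)))⟩

theorem Fst.uniq {i u u' : ℕ} {σ : List ℕ} (h : Fst i σ u) (k : Fst i σ u') : u = u' :=
  le_antisymm (not_lt.1 fun c => h.2 _ c k.1) (not_lt.1 fun c => k.2 _ c h.1)

theorem Fst_re : RE fun z : ℕ × List ℕ × ℕ => Fst z.1 z.2.1 z.2.2 := by
  have h : Primrec fun z : ℕ × List ℕ × ℕ => (Nat.Partrec.Code.evaln z.2.2.unpair.2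
      (Denumerable.ofNat _ z.1) (encode (z.2.1, z.2.2.unpair.1))).isSome :=
    Primrec.option_isSome.comp (Nat.Partrec.Code.primrec_evaln.comp (g := fun z : ℕ × List ℕ × ℕ =>
      ((z.2.2.unpair.2, Denumerable.ofNat _ z.1), encode (z.2.1, z.2.2.unpair.1))) (.pair (.pair
        (by fun_prop) ((Primrec.ofNat _).comp .fst)) (Primrec.encode.comp (by fun_prop))))
  generalize hE : (fun i (σ : List ℕ) (u : ℕ) => (Nat.Partrec.Code.evaln u.unpair.2
    (Denumerable.ofNat _ i) (encode (σ, u.unpair.1))).isSome) = E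
  have e := fun i σ u => congrFun (congrFun (congrFun hE i) σ) u
  simp only [Fst, e] at h ⊢
  exact RE.un (RE.re (by fun_prop))

theorem gen {L : ℕ → ℕ} (hL : Primrec L) (hm : Monotone L) (c : Cond fun l => 2 ^ L l + 1)
    (lev : ∀ l, ∃ F : Finset (List ℕ), F.card * (l + 1) * 2 ^ (l + 1) ≤ 2 ^ L l ∧
      ∀ σ, c.T σ → σ.length = l → σ ∈ F) :
    ∃ g, (∀ M, ∃ τ, c.T τ ∧ M ≤ τ.length ∧ Pf τ g) ∧ (∀ τ, Pf τ g → ¬ c.S τ) ∧
      (∀ f : ℕ → ℕ, CI (gf g) f → ∃ b : ℕ → ℕ, CI (fun _ => false) b ∧ ∀ n, f n ≤ b n) ∧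
        ∀ R, CI (gf g) R → ¬ Rand R := by
  have hV := V_re
  have tb : Primrec fun z : ℕ × ℕ => Fn.tb z.1 z.2 := Fn.tb_prim
  obtain ⟨g, hg⟩ := generic c (Sum.elim (fun (e : ℕ) d =>
    (∃ n : ℕ, ∀ τ (v : ℕ), V (e.pair (encode (n, v))) τ → d.S τ) ∨ ∃ b : ℕ → ℕ,
      CI (fun _ => false) b ∧ ∀ g, (∀ M, ∃ τ, d.T τ ∧ M ≤ τ.length ∧ Pf τ g) →
        ∀ n, ∃ τ, Pf τ g ∧ (d.S τ ∨ ∃ v ≤ b n, V (e.pair (encode (n, v))) τ))
    fun (e : ℕ × ℕ) d => (∃ l, ∀ τ, ∀ v < 2 ^ L l, (∀ j < L l, V (e.1.pair (encode (j, Fn.tb v j))) τ)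
      → d.S τ) ∨ ∃ i σ u, i ≤ σ.length ∧ e.2 ≤ σ.length ∧ c.T σ ∧ Fst i σ u ∧
        ∀ j < L σ.length, V (e.1.pair (encode (j, Fn.tb u.unpair.1 j))) d.σ) (by
    rintro (e | ⟨e, k⟩) d hd
    · obtain ⟨d', a1, a2⟩ := stepH (fun l => Nat.succ_le_succ Nat.one_le_two_pow) d
        (X := fun n v τ => V (e.pair (encode (n, v))) τ) (RE.un (RE.re (by
          generalize V = V' at hV; fun_prop))) fun _ _ _ _ a b => b.mono a
      exact ⟨d', a1, a2.imp_right fun ⟨b, a3, a4⟩ => ⟨b, a3, fun g hg n => (a4 g hg n).imp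
        fun τ a => ⟨a.1, a.2.imp_left (a1.2.2 τ)⟩⟩⟩
    · obtain ⟨d', a1, a2⟩ := stepR hL hm d
        (X := fun l v τ => ∀ j < L l, V (e.pair (encode (j, Fn.tb v j))) τ) (RE.un (RE.re (by
          generalize V = V' at hV; generalize Fn.tb = t at tb; fun_prop)))
        (fun _ _ _ _ a b j hj => (b j hj).mono a) k
      exact ⟨d', a1, a2.imp_right fun ⟨i, σ, u, a3, a4, a5, a6⟩ => ⟨i, σ, u, a3, a4, hd.2.1 _ a5, a6⟩⟩)
  obtain ⟨d, a1, -, -, a2, a3⟩ := hg (.inl 0)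
  refine ⟨g, fun M => (a2 M).imp fun τ a => ⟨a1.2.1 _ a.1, a.2⟩, fun τ a b => a3 τ a (a1.2.2 _ b),
    fun f hf => ?_, fun R hR hr => ?_⟩
  · obtain ⟨e, he⟩ := hf.ri.idx
    obtain ⟨d, -, ⟨n, b1⟩ | ⟨b, b1, b2⟩, -, b3, b4⟩ := hg (.inl e)
    · obtain ⟨s, hs⟩ := V.complete ((he (n, f n)).2 rfl)
      obtain ⟨τ, -, b5, b6⟩ := b3 s
      exact absurd (b1 τ _ (hs τ b5 b6)) (b4 τ b6)
    · refine ⟨b, b1, fun n => ?_⟩
      obtain ⟨τ, b5, b6⟩ := b2 g b3 n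
      obtain ⟨v, b7, b8⟩ := b6.resolve_left (b4 τ b5)
      exact ((he (n, v)).1 (b8.sound b5)).trans_le b7
  · obtain ⟨e, he⟩ := hR.ri.idx
    have hF := Fst_re
    have hT := c.hT
    obtain ⟨k, hk⟩ := hr (fun k ρ => ∃ σ : List ℕ, ∃ i u, i ≤ σ.length ∧ k ≤ σ.length ∧ c.T σ ∧
      Fst i σ u ∧ ρ = pre (Fn.tb u.unpair.1) (L σ.length)) (RE.re (by
        generalize c.T = T at hT; generalize Fst = F at hF; fun_prop)) fun k => by
      choose F h1 h2 using lev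
      refine (measure_mono (t := ⋃ j, ⋃ σ ∈ F (k + j), ⋃ i ∈ range (k + j + 1), ⋃ u,
        ⋃ _ : Fst i σ u, cyl (pre (Fn.tb u.unpair.1) (L (k + j)))) ?_).trans
          ((measure_iUnion_le _).trans ((ENNReal.tsum_le_tsum (g := fun j => 2⁻¹ ^ k * 2⁻¹ ^ (j + 1))
            fun j => ?_).trans_eq ?_))
      · rintro Y ⟨m, σ, i, u, b1, b2, b3, b4, b5⟩
        obtain ⟨j, hj⟩ := Nat.exists_eq_add_of_le b2
        simp only [Set.mem_iUnion]
        exact ⟨j, σ, h2 _ σ b3 hj, i, mem_range.2 (by omega), u, b4, by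
          rw [← hj, ← b5, cyl, Set.mem_setOf_eq, pre_len]⟩
      · rw [← pow_add, ← add_assoc]
        generalize k + j = l
        refine (measure_biUnion_finset_le _ _).trans ((sum_le_card_nsmul _ _ _ fun σ _ =>
          (measure_biUnion_finset_le _ _).trans (sum_le_card_nsmul _ _ (2⁻¹ ^ L l)
            fun i _ => ?_)).trans ?_)
        · by_cases b : ∃ u, Fst i σ u
          · obtain ⟨u, b⟩ := b
            refine (measure_mono (Set.iUnion₂_subset fun u' b' => ?_)).trans_eq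
              ((mu_cyl (pre (Fn.tb u.unpair.1) (L l))).trans (by rw [pre_len]))
            rw [b.uniq b']
          · simp [not_exists.1 b]
        · have : ((F l).card * (l + 1) * 2 ^ (l + 1) : ℝ≥0∞) ≤ 2 ^ L l := by exact_mod_cast h1 l
          rw [card_range, nsmul_eq_mul, nsmul_eq_mul, ← mul_assoc, ← ENNReal.inv_pow,
            ← ENNReal.inv_pow, ← div_eq_mul_inv, ENNReal.div_le_iff (by simp) (by simp),
            mul_comm _ (2 ^ L l), ← div_eq_mul_inv, ENNReal.le_div_iff_mul_le (by simp) (by simp)]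
          exact_mod_cast this
      · rw [ENNReal.tsum_mul_left, ENNReal.tsum_geometric_add_one]
        simp [ENNReal.inv_mul_cancel]
    obtain ⟨d, -, ⟨l, b1⟩ | ⟨i, σ, u, b1, b2, b5, b6, b7⟩, b0, b3, b4⟩ := hg (.inr (e, k))
    · choose s hs using fun j => V.complete ((he (j, R j)).2 rfl)
      obtain ⟨τ, -, b5, b6⟩ := b3 ((range (L l)).sup s)
      exact b4 τ b6 (b1 τ _ (Fn.cd_lt R _) fun j hj => (Fn.tb_cd R _ j hj).symm ▸
        hs j τ ((le_sup (mem_range.2 hj)).trans b5) b6)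
    · exact hk _ ⟨σ, i, u, b1, b2, b5, b6, pre_congr fun j hj => (he (j, _)).1 ((b7 j hj).sound b0)⟩

end Pool.Agent.H.MP_99e598_lc
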