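import Pool.Agent.H.MP_99e598_lc.B
import Pool.Agent.H.MP_9fb7a1_lc.C

set_option autoImplicit false

/-! Short random seeds that meet almost all functionals. -/

namespace Pool.Agent.H.MP_99e598_lc

open Filter Pool.Agent.H.MP_fa2eca_lc Pool.Agent.Lib.helper21 Encodable MeasureTheory
open Pool.Agent.Lib.helper21.PR Finset Pool.Agent.Lib.helper21.ML ProbabilityTheory
open Pool.Agent.H.MP_9fb7a1_lc Pool.Agent.H.MP_e12961_lc
open scoped ENNReal

attribute [local irreducible] Primrec Computable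

theorem hoef {r n x t : ℕ} (hr : 0 < r) (hx : 0 < x) (hn : x ≤ n) (ht : 4 * r * r * t ≤ x)
    (S : ℕ → Bool) : Fn.mu {Z | bad r n (fun j => Z ((j - n ^ 3) % x)) S} ≤
      ENNReal.ofReal ((1 : ℕ) / (2 ^ (2 * t) : ℕ)) := by
  let I := (range ((n + 1) ^ 3)).filter fun j => n ^ 3 < j
  have hI : I.card = 3 * n * n + 3 * n := by
    rw [show I = Ioo (n ^ 3) ((n + 1) ^ 3) by ext; simp [I, and_comm], Nat.card_Ioo]
    ring_nf; omega
  let X : ℕ → (ℕ → Bool) → ℝ := fun i Z =>
    ∑ j ∈ I with (j - n ^ 3) % x = i, (ind (fun _ => S j) i Z - 1 / 2)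
  have h1 : iIndepFun X Fn.mu := iIndepFun_infinitePi (X := fun i b =>
    ∑ j ∈ I with (j - n ^ 3) % x = i, ((if S j ≠ b then (1 : ℝ) else 0) - 1 / 2))
      fun _ => Measurable.of_discrete
  obtain ⟨m, h6, h2, h3⟩ : ∃ m : ℕ, 0 < m ∧ m * x ≤ 2 * I.card ∧
      ∀ i, (I.filter fun j => (j - n ^ 3) % x = i).card ≤ m := by
    refine ⟨I.card / x + 1, Nat.succ_pos _, by nlinarith [Nat.div_mul_le_self I.card x], fun i =>
      (card_le_card_of_injOn (t := range (I.card / x + 1)) (fun j => (j - n ^ 3) / x)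
        (fun j hj => ?_) fun j hj k hk e => ?_).trans_eq (card_range _)⟩
    · simp only [coe_filter, I, mem_filter, mem_range, Set.mem_setOf_eq] at hj
      refine mem_coe.2 (mem_range.2 (Nat.lt_succ_of_le (Nat.div_le_div_right ?_)))
      have : (n + 1) ^ 3 = n ^ 3 + (3 * n * n + 3 * n) + 1 := by ring
      omega
    · simp only [coe_filter, I, mem_filter, mem_range, Set.mem_setOf_eq] at hj hk e
      have a := Nat.div_add_mod (j - n ^ 3) x
      have b := Nat.div_add_mod (k - n ^ 3) x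
      rw [e, hj.2, ← hk.2, b] at a
      omega
  have h4 : ∀ i < x, HasSubgaussianMGF (X i) ((‖(m / 2 : ℝ) - -(m / 2)‖₊ / 2) ^ 2) Fn.mu :=
    fun i _ => by
      refine hasSubgaussianMGF_of_mem_Icc_of_integral_eq_zero (Finset.measurable_sum _ fun j _ =>
        (ind_meas _ _).sub_const _).aemeasurable (.of_forall fun Z => abs_le.1 ?_) ?_
      · refine (abs_sum_le_sum_abs _ _).trans ((sum_le_card_nsmul _ _ (1 / 2) fun j _ => ?_).trans ?_)
        · unfold ind; split_ifs <;> norm_num [abs_of_pos]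
        · rw [nsmul_eq_mul, mul_one_div]
          exact div_le_div_of_nonneg_right (by exact_mod_cast h3 i) (by norm_num)
      · have := fun j => Integrable.of_mem_Icc _ _ (ind_meas (fun _ => S j) i).aemeasurable
          (ind_bd _ _)
        exact (integral_finset_sum _ fun j _ => (this j).sub (integrable_const _)).trans
          (sum_eq_zero fun j _ => (integral_sub (this j) (integrable_const _)).trans (by
            rw [ind_mean]; simp))
  have h5 := HasSubgaussianMGF.measure_sum_range_ge_le_of_iIndepFun h1 h4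
    (ε := I.card / r) (by positivity)
  have hp : (0 : ℝ) < I.card := by rw [hI]; have : 0 < n := by omega
                                   positivity
  rw [ENNReal.le_ofReal_iff_toReal_le (measure_ne_top _ _) (by positivity)]
  refine (measureReal_mono fun Z hZ => ?_).trans (h5.trans ?_)
  · simp only [Set.mem_setOf_eq, bad, ← hI, ← filter_filter] at hZ ⊢
    rw [sum_congr rfl fun i _ => sum_congr rfl (g := fun j =>
      (if S j ≠ Z ((j - n ^ 3) % x) then (1 : ℝ) else 0) - 1 / 2) fun j hj => by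
        rw [(mem_filter.1 hj).2]; rfl, sum_fiberwise_of_maps_to fun j _ =>
          mem_range.2 (Nat.mod_lt _ hx), sum_sub_distrib, sum_boole, sum_const, nsmul_eq_mul]
    have : ((r + 2) * I.card : ℝ) < 2 * r * (I.filter fun j => S j ≠ Z ((j - n ^ 3) % x)).card := by
      exact_mod_cast hZ
    rw [div_le_iff₀ (by positivity)]; linarith
  · have h7 : (m * x : ℝ) ≤ 2 * I.card := by exact_mod_cast h2
    have h8 : (4 * r * r * t : ℝ) ≤ x := by exact_mod_cast ht
    refine (Real.exp_le_exp.2 (show _ ≤ -((2 * t : ℕ) * 1 : ℝ) from ?_)).trans ?_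
    · push_cast
      rw [show (m / 2 - -(m / 2) : ℝ) = m by ring, Real.norm_natCast, neg_div, neg_le_neg_iff,
        le_div_iff₀ (by positivity), div_pow (I.card : ℝ), le_div_iff₀ (by positivity)]
      have := mul_le_mul h7 h7 (by positivity) (by positivity)
      have := mul_le_mul_of_nonneg_right h8 (show (0 : ℝ) ≤ x * m * m by positivity)
      nlinarith
    · rw [Real.exp_neg, Real.exp_nat_mul, Nat.cast_one, one_div, Nat.cast_pow]
      exact inv_anti₀ (by positivity) (pow_le_pow_left₀ (by positivity)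
        (by push_cast; linarith [Real.add_one_le_exp 1]) _)

theorem params : ∃ x t y : ℕ → ℕ, Primrec x ∧ Primrec t ∧ Primrec y ∧ y 0 = 0 ∧ 0 < x 0 ∧
    StrictMono x ∧ ∀ l, y (l + 1) = y l + x l ∧ x l = 4 * (l + 1) * (l + 1) * t l ∧
      (l + 1) * (y l + 2 * l + 2) ≤ t l ∧ 2 ^ l * ((l + 1) * x (l + 1)) < 2 ^ t l := by
  let y : ℕ → ℕ := fun l => Nat.rec 0 (fun l y =>
    y + 4 * (l + 1) * (l + 1) * (16 * (l + 1) * (y + 2 * l + 2))) l
  have hy : Primrec y := by unfold y; fun_prop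
  have e : ∀ l, y (l + 1) = y l + 4 * (l + 1) * (l + 1) * (16 * (l + 1) * (y l + 2 * l + 2)) :=
    fun _ => rfl
  refine ⟨fun l => 4 * (l + 1) * (l + 1) * (16 * (l + 1) * (y l + 2 * l + 2)),
    fun l => 16 * (l + 1) * (y l + 2 * l + 2), y, by fun_prop, by fun_prop, hy, rfl, by positivity,
    strictMono_nat_of_lt_succ fun l => ?_, fun l => ⟨rfl, rfl, by nlinarith, ?_⟩⟩
  · have : y l ≤ y (l + 1) := Nat.le_add_right _ _
    exact Nat.mul_lt_mul_of_lt_of_le (by nlinarith) (by gcongr <;> omega) (by positivity)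
  · simp only [e]
    obtain ⟨s, hs⟩ : ∃ s, s = 8 * (l + 1) * (y l + 2 * l + 2) := ⟨_, rfl⟩
    rw [show 16 * (l + 1) * (y l + 2 * l + 2) = s + s by rw [hs]; ring]
    have h1 : y l + 2 * l + 2 ≤ s := hs ▸ Nat.le_mul_of_pos_left _ (by omega)
    have h2 : 7 * l + 15 ≤ s := by nlinarith [Nat.zero_le ((l + 1) * y l)]
    have h3 : l + 2 ≤ 2 ^ (l + 1) := Nat.lt_two_pow_self
    have h4 : y l + 4 * (l + 1) * (l + 1) * (s + s) + 2 * (l + 1) + 2 ≤ 8 * (l + 2) ^ 2 * s := by
      nlinarith [Nat.zero_le (l * s)]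
    calc _ ≤ 2 ^ l * ((l + 2) * (4 * (l + 2) * (l + 2) * (16 * (l + 2) * (8 * (l + 2) ^ 2 * s)))) := by
          gcongr; omega
      _ = 2 ^ (l + 9) * (l + 2) ^ 6 * s := by ring
      _ ≤ 2 ^ (l + 9) * (2 ^ (l + 1)) ^ 6 * s := by gcongr
      _ = 2 ^ (7 * l + 15) * s := by ring
      _ < 2 ^ s * 2 ^ s := Nat.mul_lt_mul_of_le_of_lt (Nat.pow_le_pow_right (by omega) h2)
          Nat.lt_two_pow_self (by positivity)
      _ = _ := by ring

def Ev (x : ℕ → ℕ) (z : ℕ × ℕ) (ρ : List Bool) : Prop := ∃ e < z.1 + 1, ∃ n < x (z.1 + 1),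
  x z.1 ≤ n ∧ (∀ j < (n + 1) ^ 3, ∃ u < ρ.length, Fn.att e (fun k => ρ.getD k false) u j ≠ 0) ∧
    bad (z.1 + 1) n (fun j => Fn.tb z.2 ((j - n ^ 3) % x z.1))
      (svs e (fun k => ρ.getD k false) ρ.length)

variable {x : ℕ → ℕ}

theorem Ev_re (hx : Primrec x) : RE fun z : (ℕ × ℕ) × List Bool => Ev x z.1 z.2 := by
  have h1 : Primrec fun z : ℕ × ℕ => Fn.tb z.1 z.2 := Fn.tb_prim
  exact RI.re (RI.un (i_ci (by unfold Ev bad; fun_prop)))

theorem Ev_iff {l v m : ℕ} {B : ℕ → Bool} : Ev x (l, v) (pre B m) ↔ ∃ e < l + 1, ∃ n < x (l + 1),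
    x l ≤ n ∧ (∀ j < (n + 1) ^ 3, ∃ u < m, Fn.att e B u j ≠ 0) ∧
      bad (l + 1) n (fun j => Fn.tb v ((j - n ^ 3) % x l)) (sv e B) := by
  have h : ∀ k < m, (pre B m).getD k false = B k := fun k hk => by simp [pre, hk]
  refine exists_congr fun e => and_congr_right fun _ => exists_congr fun n =>
    and_congr_right fun _ => and_congr_right fun _ => ?_
  rw [pre_len, forall₂_congr fun j _ => exists_congr fun u => and_congr_right fun hu => by
    rw [Fn.att_congr _ h (le_of_lt hu)]]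
  exact and_congr_right fun c => ⟨fun k => k.congr (fun _ _ _ => rfl) fun j hj =>
    svs_congr h le_rfl (c j hj), fun k => k.congr (fun _ _ _ => rfl) fun j hj =>
      (svs_congr h le_rfl (c j hj)).symm⟩

def Tr (x : ℕ → ℕ) (l v : ℕ) : Prop :=
  ((1 : ℕ) : ℝ) / 2 ^ l < Fn.mu.real {B | ∃ m, Ev x (l, v) (pre B m)}

theorem Tr_re (hx : Primrec x) : RE fun z : ℕ × ℕ => Tr x z.1 z.2 :=
  r_comp (f := fun z : ℕ × ℕ => (z, 1, z.1)) (ML.low_mu (Ev_re hx)) (by fun_prop)

theorem Tr_card {l t : ℕ} (h0 : 0 < x l) (ht : 4 * (l + 1) * (l + 1) * t ≤ x l) {F : Finset ℕ}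
    (h : ∀ v ∈ F, v < 2 ^ x l ∧ Tr x l v) :
    2 ^ (2 * t) * F.card ≤ 2 ^ l * ((l + 1) * x (l + 1)) * 2 ^ x l := by
  classical
  have h1 := card_nsmul_le_sum F _ _ fun v hv => (h v hv).2.le
  have h2 : ∀ B, 2 ^ (2 * t) * (F.filter fun v => ∃ m, Ev x (l, v) (pre B m)).card ≤
      (l + 1) * x (l + 1) * 2 ^ x l := fun B => by
    refine (Nat.mul_le_mul_left _ ((card_le_card (t := (range (l + 1) ×ˢ Ico (x l) (x (l + 1))).biUnion
      fun z => (range (2 ^ x l)).filter fun v => bad (l + 1) z.2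
        (fun j => Fn.tb v ((j - z.2 ^ 3) % x l)) (sv z.1 B)) fun v hv => ?_).trans
          card_biUnion_le)).trans ?_
    · obtain ⟨a, m, b⟩ := mem_filter.1 hv
      obtain ⟨e, b1, n, b2, b3, -, b4⟩ := Ev_iff.1 b
      exact mem_biUnion.2 ⟨(e, n), by simp; omega, mem_filter.2 ⟨mem_range.2 (h v a).1, b4⟩⟩
    · rw [mul_sum]
      refine (sum_le_card_nsmul _ _ (1 * 2 ^ x l) fun (z : ℕ × ℕ) hz => (real_loc (S := fun Z => bad (l + 1) z.2
        (fun j => Z ((j - z.2 ^ 3) % x l)) (sv z.1 B)) (fun _ _ e k => k.congr (fun j _ _ =>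
          e _ (Nat.mod_lt _ h0)) fun _ _ => rfl) (by positivity)).1 (hoef l.succ_pos h0
            (mem_Ico.1 (mem_product.1 hz).2).1 ht _)).trans ?_
      simp only [card_product, card_range, Nat.card_Ico, smul_eq_mul, one_mul]
      gcongr; omega
  have h3 := fun v => (integrable_const (1 : ℝ) (μ := Fn.mu)).indicator (opn_meas (Ev x (l, v)))
  have h4 := integral_mono (integrable_finset_sum F fun v _ => h3 v) (integrable_const
    (((l + 1) * x (l + 1) * 2 ^ x l : ℕ) / (2 ^ (2 * t) : ℕ) : ℝ)) fun B => by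
      simp only [Set.indicator_apply, sum_boole, Set.mem_setOf_eq]
      rw [le_div_iff₀ (by positivity), mul_comm]
      exact_mod_cast h2 B
  rw [integral_finset_sum F fun v _ => h3 v, sum_congr rfl fun v _ =>
    integral_indicator_const _ (opn_meas _)] at h4
  simp only [smul_eq_mul, mul_one, integral_const, probReal_univ, one_mul] at h4
  have h5 := h1.trans h4
  rw [nsmul_eq_mul, Nat.cast_one, mul_one_div, div_le_div_iff₀ (by positivity) (by positivity)] at h5
  have h6 : F.card * 2 ^ (2 * t) ≤ (l + 1) * x (l + 1) * 2 ^ x l * 2 ^ l := by exact_mod_cast h5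
  linarith

theorem attr_of' {A C : ℕ → Bool} (h1 : CI A C) (h2 : CI C A)
    (h : ∀ᵐ B ∂Fn.mu, ∀ D, CI B D → del C D ≤ 1 / 2) : Attractive A := by
  rw [Attractive, coin_eq]
  filter_upwards [h, ae_all_iff.2 fun e => slln (sv e A)] with B h3 h4
  have h5 : ∀ C : Deg A, del C.1 B = 1 / 2 := fun C => let ⟨e, _, he⟩ := sv_spec C.2.1; he ▸ h4 e
  have h6 : ∀ D : Deg B, ⨅ C : Deg A, del C.1 D.1 ≤ 1 / 2 := fun D =>
    ciInf_le_of_le ⟨0, by rintro _ ⟨C, rfl⟩; exact del_ge _ _⟩ ⟨C, h1.orc, h2.orc⟩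
      (h3 _ (CI.of_orc D.2.1))
  refine le_antisymm (max_le (ciSup_le fun C => ciInf_le_of_le ⟨0, by
    rintro _ ⟨C, rfl⟩; exact del_ge _ _⟩ ⟨B, .refl _⟩ (h5 C).le) (ciSup_le h6))
    (le_max_of_le_right (le_ciSup_of_le ⟨1 / 2, by rintro _ ⟨D, rfl⟩; exact h6 D⟩ ⟨B, .refl _⟩
      (le_ciInf fun C => (h5 C).ge)))

theorem attr (hx : Primrec x) (hm : StrictMono x) {g : ℕ → ℕ} (hg : ∀ l, ¬ Tr x l (g l)) :
    Attractive (gf g) := by
  obtain ⟨l, h5, h6⟩ := block (· ^ 3) (by fun_prop) rfl (Nat.pow_left_strictMono (by norm_num))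
  obtain ⟨k, h7, h8⟩ := block (fun m => x m - x 0) (by fun_prop) (Nat.sub_self _) fun a b h => by
    have := hm h
    have := hm.monotone a.zero_le
    dsimp only
    omega
  have h1 : Primrec fun z : ℕ × ℕ => Fn.tb z.1 z.2 := Fn.tb_prim
  have h2 := ci_gf g
  generalize gf g = A at h2
  have hA := ci_self A
  have hl := h5 A
  have hk := h7 A
  let C : ℕ → Bool := fun j => if j = l j ^ 3 then A (l j) else
    Fn.tb (g (k (l j - x 0))) ((j - l j ^ 3) % x (k (l j - x 0)))
  have h4 : ∀ n, l (n ^ 3) = n := fun n => (h6 _ _).2 ⟨le_rfl, Nat.pow_lt_pow_left (by omega) (by omega)⟩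
  refine attr_of' (C := C) (by unfold C; fun_prop) ((ci_comp (g := fun n => n ^ 3) (ci_self C)
    (by fun_prop)).of_eq fun n => by simp [C, h4]) ?_
  have h9 : ∀ l, Fn.mu {B | ∃ m, Ev x (l, g l) (pre B m)} ≤ ENNReal.ofReal ((1 / 2) ^ l) := fun l =>
    (ENNReal.le_ofReal_iff_toReal_le (measure_ne_top _ _) (by positivity)).2
      ((not_lt.1 (hg l)).trans_eq (by simp))
  filter_upwards [ae_eventually_notMem (ne_top_of_le_ne_top
    summable_geometric_two.tsum_ofReal_ne_top (ENNReal.tsum_le_tsum h9))] with B hB D hD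
  obtain ⟨e, k1, rfl⟩ := sv_spec hD.orc
  obtain ⟨N, hN⟩ := eventually_atTop.1 hB
  refine le_of_forall_pos_le_add fun ε hε => ?_
  obtain ⟨r, hr⟩ := exists_nat_one_div_lt (show 0 < ε / 3 by positivity)
  refine (dens r.succ_pos ((eventually_ge_atTop (x (N + r + e))).mono fun n a1 c => ?_)).trans (by
    push_cast
    rw [div_eq_mul_one_div 3]
    linarith)
  obtain ⟨a2, a3⟩ := (h8 (n - x 0) _).1 rfl
  have a4 := hm.monotone (N + r + e).zero_le
  have a5 := hm.monotone (k (n - x 0)).zero_le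
  have a6 : N + r + e < k (n - x 0) + 1 := hm.lt_iff_lt.1 (by omega)
  obtain ⟨s, hs⟩ := stage k1 ((n + 1) ^ 3)
  refine hN (k (n - x 0)) (by omega) ⟨s, Ev_iff.2 ⟨e, by omega, n, by omega, by omega, hs, ?_⟩⟩
  replace c := c.congr (Z' := fun j => Fn.tb (g (k (n - x 0))) ((j - n ^ 3) % x (k (n - x 0))))
    (fun j hj a => by simp only [C, (h6 _ _).2 ⟨a.le, hj⟩, if_neg a.ne']) fun _ _ => rfl
  unfold bad at c ⊢
  generalize card _ = q at c ⊢
  generalize 3 * n * n + 3 * n = M at c ⊢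
  obtain ⟨d, hd⟩ := Nat.exists_eq_add_of_le (show r ≤ k (n - x 0) by omega)
  rw [hd]
  have : M < 2 * q := by by_contra; nlinarith
  nlinarith

theorem final : ∃ A, Attractive A ∧
    (∀ f : ℕ → ℕ, CI A f → ∃ b : ℕ → ℕ, CI (fun _ => false) b ∧ ∀ n, f n ≤ b n) ∧
      ∀ R, CI A R → ¬ Rand R := by
  classical
  obtain ⟨x, t, y, h1, h2, h3, h4, h5, h6, h7⟩ := params
  have h8 := Tr_re h1
  have h9 : ∀ l, t l ≤ x l := fun l => (h7 l).2.1 ▸ Nat.le_mul_of_pos_left _ (by positivity)
  have h0 : ∀ σ, Big (fun τ => ∀ i < τ.length, τ.getD i 0 < 2 ^ x i) (fun l => 2 ^ (x l - t l))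
      (fun τ => ∃ l, l < τ.length ∧ Tr x l (τ.getD l 0)) σ →
        ∃ l, l < σ.length ∧ Tr x l (σ.getD l 0) := fun σ h => by
    induction h with
    | base h => exact h
    | @step σ F a1 a2 _ ih =>
      by_contra c
      have := Tr_card (h5.trans_le (h6.monotone σ.length.zero_le)) (h7 _).2.1.ge (F := F)
        fun a ha => ⟨by simpa using a2 a ha σ.length (by simp), by
          obtain ⟨n, h2, h3⟩ := ih a ha
          rcases (show n ≤ σ.length by simp at h2; omega).eq_or_lt with rfl | d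
          · simpa using h3
          · exact absurd ⟨n, d, List.getD_append _ _ _ _ d ▸ h3⟩ c⟩
      refine (((Nat.mul_le_mul_left _ a1).trans this).trans_lt (Nat.mul_lt_mul_of_pos_right
        (h7 _).2.2.2 (by positivity))).ne ?_
      rw [← pow_add, ← pow_add]
      have := h9 σ.length
      congr 1
      omega
  obtain ⟨g, -, a1, a2⟩ := gen (L := fun l => y l + 2 * l + 1) (by fun_prop)
    (monotone_nat_of_le_succ fun l => by have := (h7 l).1; omega)
    { σ := [], T := fun τ => ∀ i < τ.length, τ.getD i 0 < 2 ^ x i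
      S := fun τ => ∃ l, l < τ.length ∧ Tr x l (τ.getD l 0)
      p := fun l => 2 ^ (x l - t l), w := fun l => 2 ^ x l
      hT := RE.un (RE.re (by fun_prop)), hp := by fun_prop, hw := by fun_prop, mem := by simp
      hS := RE.un (RE.re (by generalize Tr x = T at h8; fun_prop))
      down := by
        rintro ρ _ ⟨τ, rfl⟩ h i hi
        exact List.getD_append _ _ _ _ hi ▸ h i (by simp; omega)
      up := by
        rintro ρ _ ⟨τ, rfl⟩ ⟨i, hi, h⟩
        exact ⟨i, by simp; omega, (List.getD_append _ _ _ _ hi).symm ▸ h⟩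
      bushy := fun ρ _ h => ⟨range _, (card_range _).ge, fun a ha i hi => by
        rcases (show i ≤ ρ.length by simp at hi; omega).eq_or_lt with rfl | d
        · simpa using ha
        · exact (List.getD_append _ _ _ _ d).symm ▸ h i d⟩
      small := fun h => by simpa using h0 _ h
      pos := fun _ => by positivity
      le := fun _ _ => Nat.pow_le_pow_right (by omega) (Nat.sub_le _ _)
      room := fun c => (eventually_ge_atTop c).mono fun l hl =>
        calc _ ≤ (2 ^ (y l + 2 * l + 2)) ^ (l + 1) * 2 ^ (x l - t l) := Nat.mul_le_mul_right _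
              ((Nat.pow_le_pow_left (Nat.pow_lt_pow_right (by omega) (by omega)) _).trans
                (Nat.pow_le_pow_right (by positivity) (by omega)))
          _ ≤ _ := by
            rw [← pow_mul, ← pow_add, mul_comm]
            have := h9 l
            have := (h7 l).2.2.1
            exact Nat.pow_le_pow_right (by omega) (by omega) }
    fun l => by
      have : ∃ F : Finset (List ℕ), F.card ≤ 2 ^ y l ∧ ∀ σ : List ℕ,
          (∀ i < σ.length, σ.getD i 0 < 2 ^ x i) → σ.length = l → σ ∈ F := by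
        induction l with
        | zero => exact ⟨{[]}, by simp [h4], by simp⟩
        | succ l ih =>
          obtain ⟨F, b1, b2⟩ := ih
          refine ⟨(F ×ˢ range (2 ^ x l)).image fun z => z.1 ++ [z.2], card_image_le.trans (by
            rw [card_product, card_range, (h7 l).1, pow_add]; gcongr), fun σ b3 b4 => ?_⟩
          obtain rfl | ⟨ρ, a, rfl⟩ := σ.eq_nil_or_concat'
          · simp at b4
          · obtain rfl : ρ.length = l := by simpa using b4
            exact mem_image.2 ⟨(ρ, a), mem_product.2 ⟨b2 ρ (fun i hi => List.getD_append _ _ _ _ hi ▸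
              b3 i (by simp; omega)) rfl, by simpa using b3 ρ.length (by simp)⟩, rfl⟩
      refine this.imp fun F b => ⟨?_, b.2⟩
      calc _ ≤ 2 ^ y l * 2 ^ l * 2 ^ (l + 1) := by gcongr; exacts [b.1, Nat.lt_two_pow_self]
        _ = _ := by ring
  exact ⟨_, attr h1 h6 fun l h => a1 ((List.range (l + 1)).map g) (fun k hk => by
    simp at hk; simp [Nat.lt_succ_of_le hk]) ⟨l, by simp, by simpa using h⟩, a2⟩

end Pool.Agent.H.MP_99e598_lc
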